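import Mathlib

set_option autoImplicit false

/-! Graphs of large girth from a division algebra of degree three with an involution of the second
kind.  `K` is a finite field of characteristic two with an automorphism `σ` of order three,
`z a = σ(a) z`, `z³ = X` central; elements are written as `3 × 3` matrices over `K[X]`. -/

namespace Pool.Agent.Helper50.GX

open Polynomial

/-- `3 × 3` matrices over `K[X]`. -/
abbrev Mat (K : Type) [Field K] := Matrix (Fin 3) (Fin 3) K[X]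

/-- `3 × 3` matrices over `K⟦X⟧`. -/
abbrev PMat (K : Type) [Field K] := Matrix (Fin 3) (Fin 3) (PowerSeries K)

/-- Characteristic two and `σ³ = 1`. -/
structure Dat {K : Type} [Field K] (σ : K ≃+* K) : Prop where
  two : (2 : K) = 0
  ord : ∀ x, σ (σ (σ x)) = x

/-- The set `X` of all `β` with `β σ(β) = 1 + β`. -/
def XS {K : Type} [Field K] (σ : K ≃+* K) : Set K := {β | β * σ β = 1 + β}

/-- The matrix of `z`. -/
noncomputable def Zm {K : Type} [Field K] : Mat K := !![0, 1, 0; 0, 0, 1; X, 0, 0]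

/-- The matrix of `θ_β = β + β⁻¹ z`. -/
noncomputable def th {K : Type} [Field K] (σ : K ≃+* K) (β : K) : Mat K :=
  !![C β, C β⁻¹, 0; 0, C (σ β), C (σ β)⁻¹; C (σ (σ β))⁻¹ * X, 0, C (σ (σ β))]

/-- The adjugate `β⁻¹ + (σβ + (σβ)⁻¹) z + σ²β z²` of `θ_β`. -/
noncomputable def ad {K : Type} [Field K] (σ : K ≃+* K) (β : K) : Mat K :=
  !![C β⁻¹, C (σ β + (σ β)⁻¹), C (σ (σ β));
     C β * X, C (σ β)⁻¹, C (σ (σ β) + (σ (σ β))⁻¹);
     C (β + β⁻¹) * X, C (σ β) * X, C (σ (σ β))⁻¹]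

/-- `X^s E_ij` has degree `3 s + j - i`; `Fil d M`: all terms of `M` have degree `≥ d`. -/
def Fil {K : Type} [Field K] (d : ℕ) (M : Mat K) : Prop :=
  ∀ i j : Fin 3, ∀ s : ℕ, 3 * s + (j : ℕ) < d + (i : ℕ) → (M i j).coeff s = 0

/-- The word `∏_{i<n} θ(a_i) θ(b_i)^adj`. -/
noncomputable def wd {K : Type} [Field K] (σ : K ≃+* K) (a b : ℕ → K) : ℕ → Mat K
  | 0 => 1
  | n + 1 => wd σ a b n * (th σ (a n) * ad σ (b n))

/-- The reversed word. -/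
noncomputable def wr {K : Type} [Field K] (σ : K ≃+* K) (a b : ℕ → K) : ℕ → Mat K
  | 0 => 1
  | n + 1 => (th σ (b n) * ad σ (a n)) * wr σ a b n

/-- Reduced sequences of length `j`. -/
def Red {A : Type} (a b : ℕ → A) (j : ℕ) : Prop :=
  (∀ i, i < j → a i ≠ b i) ∧ (∀ i, i + 1 < j → b i ≠ a (i + 1))

/-- `∏_{i<n} t(a_i) t(b_i)⁻¹` in a group. -/
def gprod {Q A : Type} [Group Q] (t : A → Q) (a b : ℕ → A) : ℕ → Q
  | 0 => 1
  | n + 1 => gprod t a b n * (t (a n) * (t (b n))⁻¹)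

/-- The matrix of `z` over power series. -/
noncomputable def Zp {K : Type} [Field K] : PMat K := !![0, 1, 0; 0, 0, 1; PowerSeries.X, 0, 0]

/-- Filtration on matrices over power series. -/
def Filp {K : Type} [Field K] (d : ℕ) (M : PMat K) : Prop :=
  ∀ i j : Fin 3, ∀ s : ℕ, 3 * s + (j : ℕ) < d + (i : ℕ) → PowerSeries.coeff s (M i j) = 0

/-- Matrices of skew power series: `σ(M) Z = Z M`. -/
def Circ {K : Type} [Field K] (σ : K ≃+* K) (M : PMat K) : Prop :=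
  M.map (PowerSeries.map (σ : K →+* K)) * Zp = Zp * M

/-! ### Statements of the modules -/

/-- MAT: the matrices `θ` and their adjugates. -/
def ST_MAT : Prop :=
  ∀ (K : Type) [Field K] (σ : K ≃+* K), Dat σ → ∀ β ∈ XS σ, ∀ γ ∈ XS σ,
    th σ β * ad σ β = (1 + X : K[X]) • (1 : Mat K) ∧
    ad σ β * th σ β = (1 + X : K[X]) • (1 : Mat K) ∧
    (th σ β).det = 1 + X ∧ (ad σ β).det = (1 + X) ^ 2 ∧
    (∀ (i j : Fin 3) (s : ℕ), ((th σ γ * ad σ β) i j).coeff s =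
      if s ≤ 1 then ((th σ β * ad σ γ) j i).coeff (1 - s) else 0) ∧
    (th σ β).map (Polynomial.map (σ : K →+* K)) * Zm = Zm * th σ β ∧
    (ad σ β).map (Polynomial.map (σ : K →+* K)) * Zm = Zm * ad σ β

/-- PROD: words. -/
def ST_PROD : Prop :=
  ∀ (K : Type) [Field K] (σ : K ≃+* K), Dat σ → ∀ a b : ℕ → K,
    (∀ i, a i ∈ XS σ) → (∀ i, b i ∈ XS σ) → ∀ j : ℕ,
    wd σ a b j * wr σ a b j = ((1 + X : K[X]) ^ j) ^ 2 • (1 : Mat K) ∧
    (wd σ a b j).det = ((1 + X : K[X]) ^ j) ^ 3 ∧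
    (∀ (r c : Fin 3) (s : ℕ), (wr σ a b j r c).coeff s =
      if s ≤ j then (wd σ a b j c r).coeff (j - s) else 0) ∧
    (∀ (r c : Fin 3) (s : ℕ), j < s → (wd σ a b j r c).coeff s = 0) ∧
    (wd σ a b j).map (Polynomial.map (σ : K →+* K)) * Zm = Zm * wd σ a b j

/-- DET: determinant of `M - s` in terms of traces. -/
def ST_DET : Prop :=
  ∀ (R : Type) [CommRing R] [IsDomain R] (M N : Matrix (Fin 3) (Fin 3) R) (s : R), s ≠ 0 →
    M * N = s ^ 2 • (1 : Matrix (Fin 3) (Fin 3) R) → M.det = s ^ 3 →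
    (M - s • (1 : Matrix (Fin 3) (Fin 3) R)).det = s ^ 2 * (M.trace - N.trace)

/-- DIV: skew polynomials form a domain. -/
def ST_DIV : Prop :=
  ∀ (K : Type) [Field K] (σ : K ≃+* K) (M : Mat K),
    M.map (Polynomial.map (σ : K →+* K)) * Zm = Zm * M → M ≠ 0 → M.det ≠ 0

/-- ORD: order of the determinant. -/
def ST_ORD : Prop :=
  ∀ (K : Type) [Field K] (d s : ℕ) (M : Mat K), Fil d M → s < d → M.det.coeff s = 0

/-- PING: a reduced word does not vanish at `X = 1`. -/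
def ST_PING : Prop :=
  ∀ (K : Type) [Field K] (σ : K ≃+* K), Dat σ → ∀ a b : ℕ → K,
    (∀ i, a i ∈ XS σ) → (∀ i, b i ∈ XS σ) → ∀ j : ℕ, 1 ≤ j → Red a b j →
    ∃ r c : Fin 3, (wd σ a b j r c).eval 1 ≠ 0

/-- REL: a short reduced word is not congruent to `(1+X)^j`. -/
def ST_REL : Prop :=
  ∀ (K : Type) [Field K] (σ : K ≃+* K), Dat σ → ∀ a b : ℕ → K,
    (∀ i, a i ∈ XS σ) → (∀ i, b i ∈ XS σ) → ∀ d j : ℕ, 1 ≤ j → j ≤ 2 * d → Red a b j →
    ¬ Fil d (wd σ a b j - ((1 + X : K[X]) ^ j) • (1 : Mat K))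

/-- IDX: the group of skew power series of norm one and its congruence subgroups. -/
def ST_IDX : Prop :=
  ∀ (K : Type) [Field K] [Finite K] (σ : K ≃+* K), Dat σ →
    ∃ G : Subgroup (PMat K)ˣ, (∀ g : (PMat K)ˣ, g ∈ G ↔ Circ σ g.val ∧ g.val.det = 1) ∧
    ∀ d : ℕ, 1 ≤ d → ∃ N : Subgroup G, N.Normal ∧
      (∀ g : G, g ∈ N ↔ Filp d (g.val.val - 1)) ∧ N.index ≠ 0 ∧
      N.index ≤ Nat.card {x : K // x * σ x * σ (σ x) = 1} * Nat.card K ^ (d - 1 - (d - 1) / 3) *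
        Nat.card {x : K // x + σ x + σ (σ x) = 0} ^ ((d - 1) / 3)

/-- GRP: the finite group and the elements `t`. -/
def ST_GRP : Prop :=
  ∀ (K : Type) [Field K] [Finite K] (σ : K ≃+* K), Dat σ → ∀ d : ℕ, 1 ≤ d →
    ∃ (Q : Type) (_ : Group Q) (_ : Finite Q) (t : XS σ → Q),
      Nat.card Q ≤ Nat.card {x : K // x * σ x * σ (σ x) = 1} *
        Nat.card K ^ (d - 1 - (d - 1) / 3) *
        Nat.card {x : K // x + σ x + σ (σ x) = 0} ^ ((d - 1) / 3) ∧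
      ∀ (a b : ℕ → XS σ) (j : ℕ), 1 ≤ j → j ≤ 2 * d → Red a b j → gprod t a b j ≠ 1

/-- HAAR: the bipartite graph `(g,0) ~ (g t(x), 1)`. -/
def ST_HAAR : Prop :=
  ∀ (Q A : Type) [Group Q] [Finite Q] [Finite A] (t : A → Q) (k : ℕ), 1 ≤ k →
    (∀ (a b : ℕ → A) (j : ℕ), 1 ≤ j → j ≤ k → Red a b j → gprod t a b j ≠ 1) →
    ∃ (V : Type) (_ : Finite V) (_ : Nonempty V) (G : SimpleGraph V),
      Nat.card V = 2 * Nat.card Q ∧ (∀ v : V, (G.neighborSet v).ncard = Nat.card A) ∧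
      ∀ (u : V) (w : G.Walk u u), w.IsCycle → 2 * k + 2 ≤ w.length

/-- FLD: the fields. -/
def ST_FLD : Prop :=
  ∀ r : ℕ, 1 ≤ r → ∃ (K : Type) (_ : Field K) (_ : Finite K) (σ : K ≃+* K), Dat σ ∧
    Nat.card K = (2 ^ r) ^ 3 ∧ 2 ^ r + 1 ≤ Nat.card (XS σ) ∧
    Nat.card {x : K // x * σ x * σ (σ x) = 1} ≤ 2 * (2 ^ r) ^ 2 ∧
    Nat.card {x : K // x + σ x + σ (σ x) = 0} ≤ (2 ^ r) ^ 2

/-- COPY: disjoint copies and isolated vertices. -/
def ST_COPY : Prop :=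
  ∀ (V : Type) [Finite V] [Nonempty V] (G : SimpleGraph V) (k q n : ℕ),
    (∀ v : V, (G.neighborSet v).ncard = q) →
    (∀ (u : V) (w : G.Walk u u), w.IsCycle → k ≤ w.length) → Nat.card V ≤ n →
    ∃ H : SimpleGraph (Fin n), (∀ (u : Fin n) (w : H.Walk u u), w.IsCycle → k ≤ w.length) ∧
      n * q ≤ 4 * H.edgeSet.ncard

/-- FIN: the theorem for degree three. -/
def ST_FIN : Prop :=
  ∀ d : ℕ, 1 ≤ d →
    ∃ c : ℝ, 0 < c ∧ ∃ N : ℕ, ∀ n : ℕ, N ≤ n → ∃ G : SimpleGraph (Fin n),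
      (∀ (u : Fin n) (w : G.Walk u u), w.IsCycle → 4 * d + 2 ≤ w.length) ∧
      c * (n : ℝ) ^ ((1 : ℝ) + 1 / ((3 * d - 1 - (d - 1) / 3 : ℕ) : ℝ)) ≤ (G.edgeSet.ncard : ℝ)

end Pool.Agent.Helper50.GX
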