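import Pool.Agent.Helper50.GX.Defs

set_option autoImplicit false

/-! The uniform form of the final theorem. -/

namespace Pool.Agent.Helper50.GX

open Polynomial

/-- REG: regular graphs. -/
theorem fin2_reg (hG : ST_GRP) (hH : ST_HAAR) (hF : ST_FLD) (d r : ℕ) (hd : 1 ≤ d) (hr : 1 ≤ r) :
    ∃ (V : Type) (_ : Finite V) (_ : Nonempty V) (G : SimpleGraph V) (k : ℕ),
      2 ^ r + 1 ≤ k ∧ Nat.card V ≤ 4 * (2 ^ r) ^ (3 * d - 1 - (d - 1) / 3) ∧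
      (∀ v : V, (G.neighborSet v).ncard = k) ∧
      ∀ (u : V) (w : G.Walk u u), w.IsCycle → 4 * d + 2 ≤ w.length := by
  obtain ⟨K, hK, hfin, σ, hdat, hcard, hX, hN, hT⟩ := hF r hr
  obtain ⟨Q, hQ, hQf, t, hQc, hw⟩ := hG K σ hdat d hd
  haveI : Finite (XS σ) := inferInstance
  obtain ⟨V, hV, hVn, G, hVc, hdeg, hcyc⟩ := hH Q (XS σ) t (2 * d) (by omega) hw
  refine ⟨V, hV, hVn, G, Nat.card (XS σ), hX, ?_, hdeg, ?_⟩
  · rw [hVc]
    have h1 : Nat.card {x : K // x * σ x * σ (σ x) = 1} *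
        Nat.card K ^ (d - 1 - (d - 1) / 3) *
        Nat.card {x : K // x + σ x + σ (σ x) = 0} ^ ((d - 1) / 3) ≤
        (2 * (2 ^ r) ^ 2) * ((2 ^ r) ^ 3) ^ (d - 1 - (d - 1) / 3) *
          ((2 ^ r) ^ 2) ^ ((d - 1) / 3) := by
      rw [hcard]
      gcongr
    have h2 : (2 * (2 ^ r) ^ 2) * ((2 ^ r) ^ 3) ^ (d - 1 - (d - 1) / 3) *
          ((2 ^ r) ^ 2) ^ ((d - 1) / 3) = 2 * (2 ^ r) ^ (3 * d - 1 - (d - 1) / 3) := by
      have e1 : ((2 ^ r) ^ 3 : ℕ) ^ (d - 1 - (d - 1) / 3) =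
          (2 ^ r) ^ (3 * (d - 1 - (d - 1) / 3)) := (pow_mul _ _ _).symm
      have e2 : ((2 ^ r) ^ 2 : ℕ) ^ ((d - 1) / 3) = (2 ^ r) ^ (2 * ((d - 1) / 3)) :=
        (pow_mul _ _ _).symm
      rw [e1, e2, mul_assoc, mul_assoc, ← pow_add, ← pow_add]
      congr 2
      omega
    have h3 := hQc.trans h1
    rw [h2] at h3
    calc 2 * Nat.card Q ≤ 2 * (2 * (2 ^ r) ^ (3 * d - 1 - (d - 1) / 3)) :=
          Nat.mul_le_mul_left _ h3
      _ = _ := by ring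
  · intro u w hw'
    have := hcyc u w hw'
    omega

/-- A tree. -/
theorem fin2_tree (n : ℕ) (hn : 1 ≤ n) : ∃ G : SimpleGraph (Fin n),
    (∀ (u : Fin n) (w : G.Walk u u), ¬ w.IsCycle) ∧ n = G.edgeSet.ncard + 1 := by
  classical
  haveI : Nonempty (Fin n) := ⟨⟨0, by omega⟩⟩
  obtain ⟨T, -, hT⟩ := (SimpleGraph.connected_top (V := Fin n)).exists_isTree_le
  refine ⟨T, fun u w hw => hT.2 w hw, ?_⟩
  have h := hT.card_edgeFinset
  rw [Fintype.card_fin] at h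
  have h2 : T.edgeSet.ncard = T.edgeFinset.card := by
    rw [Set.ncard_eq_toFinset_card']
    simp [SimpleGraph.edgeFinset]
  omega

theorem fin2_main (hG : ST_GRP) (hH : ST_HAAR) (hF : ST_FLD) (hC : ST_COPY) (d : ℕ) (hd : 1 ≤ d)
    (n : ℕ) (hn : 2 ≤ n) :
    ∃ G : SimpleGraph (Fin n),
      (∀ (u : Fin n) (w : G.Walk u u), w.IsCycle → 4 * d + 2 ≤ w.length) ∧
      (n : ℝ) ^ ((1 : ℝ) + 1 / ((3 * d - 1 - (d - 1) / 3 : ℕ) : ℝ)) ≤
        16 * (G.edgeSet.ncard : ℝ) := by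
  set v := 3 * d - 1 - (d - 1) / 3 with hv
  have hv2 : 2 ≤ v := by omega
  have hn0 : (0 : ℝ) < n := by exact_mod_cast (by omega : 0 < n)
  have hn2 : (2 : ℝ) ≤ n := by exact_mod_cast hn
  have hv0 : (0 : ℝ) < (v : ℝ) := by exact_mod_cast (by omega : 0 < v)
  -- key bound: if n ≤ 4 (2 q)^v then n^(1/v) ≤ 4 q
  have key : ∀ q : ℝ, 0 < q → (n : ℝ) ≤ 4 * (2 * q) ^ v → (n : ℝ) ^ (1 / (v : ℝ)) ≤ 4 * q := by
    intro q hq h
    have h1 : (n : ℝ) ≤ (4 * q) ^ v := by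
      refine h.trans ?_
      have h4 : (4 : ℝ) ≤ 2 ^ v := by
        calc (4 : ℝ) = 2 ^ 2 := by norm_num
          _ ≤ 2 ^ v := pow_le_pow_right₀ (by norm_num) hv2
      calc 4 * (2 * q) ^ v ≤ 2 ^ v * (2 * q) ^ v := by gcongr
        _ = (4 * q) ^ v := by rw [← mul_pow]; ring
    calc (n : ℝ) ^ (1 / (v : ℝ)) ≤ ((4 * q) ^ v) ^ (1 / (v : ℝ)) := by
          apply Real.rpow_le_rpow hn0.le h1 (by positivity)
      _ = 4 * q := by
          rw [← Real.rpow_natCast, ← Real.rpow_mul (by positivity), mul_one_div_cancel hv0.ne',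
            Real.rpow_one]
  have hsplit : (n : ℝ) ^ ((1 : ℝ) + 1 / (v : ℝ)) = n * (n : ℝ) ^ (1 / (v : ℝ)) := by
    rw [Real.rpow_add hn0, Real.rpow_one]
  rw [hsplit]
  by_cases hbig : 4 * 2 ^ v ≤ n
  · -- the largest r with 4 * 2^(r v) ≤ n
    have hex : ∃ r, n < 4 * (2 ^ (r + 1)) ^ v := by
      refine ⟨n, ?_⟩
      have h1 : n < 2 ^ (n + 1) := lt_trans (Nat.lt_two_pow_self) (Nat.pow_lt_pow_right (by norm_num) (by omega))
      have h2 : 2 ^ (n + 1) ≤ (2 ^ (n + 1)) ^ v := Nat.le_self_pow (by omega) _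
      omega
    classical
    let r := Nat.find hex
    have hr1 : n < 4 * (2 ^ (r + 1)) ^ v := Nat.find_spec hex
    have hr0 : 1 ≤ r := by
      by_contra h0
      have h00 : r = 0 := by omega
      rw [h00] at hr1
      simp only [zero_add, pow_one] at hr1
      omega
    have hr2 : 4 * (2 ^ r) ^ v ≤ n := by
      have := Nat.find_min hex (m := r - 1) (by show r - 1 < r; omega)
      rw [not_lt, Nat.sub_add_cancel hr0] at this
      exact this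
    obtain ⟨V, hV, hVn, G, k, hk, hVc, hdeg, hcyc⟩ := fin2_reg hG hH hF d r hd hr0
    obtain ⟨H, hH1, hH2⟩ := hC V G (4 * d + 2) k n hdeg hcyc (hVc.trans hr2)
    refine ⟨H, hH1, ?_⟩
    have hq : (n : ℝ) ^ (1 / (v : ℝ)) ≤ 4 * 2 ^ r := by
      apply key _ (by positivity)
      have : ((n : ℕ) : ℝ) ≤ ((4 * (2 ^ (r + 1)) ^ v : ℕ) : ℝ) := by exact_mod_cast hr1.le
      push_cast at this
      refine this.trans (le_of_eq ?_)
      ring
    have h1 : (n : ℝ) * k ≤ 4 * (H.edgeSet.ncard : ℝ) := by exact_mod_cast hH2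
    have h2 : (2 : ℝ) ^ r ≤ k := by
      have : 2 ^ r ≤ k := by omega
      exact_mod_cast this
    calc (n : ℝ) * (n : ℝ) ^ (1 / (v : ℝ)) ≤ n * (4 * 2 ^ r) := by gcongr
      _ ≤ n * (4 * k) := by gcongr
      _ = 4 * (n * k) := by ring
      _ ≤ 4 * (4 * (H.edgeSet.ncard : ℝ)) := by gcongr
      _ = _ := by ring
  · obtain ⟨T, hT1, hT2⟩ := fin2_tree n (by omega)
    refine ⟨T, fun u w hw => absurd hw (hT1 u w), ?_⟩
    have h1 : (n : ℝ) ^ (1 / (v : ℝ)) ≤ 4 * 1 := by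
      apply key 1 one_pos
      have : n ≤ 4 * 2 ^ v := by omega
      rw [mul_one]
      exact_mod_cast this
    have h2 : (n : ℝ) = (T.edgeSet.ncard : ℝ) + 1 := by exact_mod_cast hT2
    calc (n : ℝ) * (n : ℝ) ^ (1 / (v : ℝ)) ≤ n * (4 * 1) := by gcongr
      _ ≤ 16 * (T.edgeSet.ncard : ℝ) := by linarith

end Pool.Agent.Helper50.GX
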